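import Pool.Agent.helper84.ZD.SpecA

/-!
# Project zd, module AL1
-/

set_option autoImplicit false

open Complex MeasureTheory

namespace Pool.Agent.ZD

open Pool.Agent.helper84.DM Pool.Agent.helper78.ED Pool.Agent.DH

theorem AL1_rho_cont (W : Finset ℝ) : Continuous (rho W) := by
  unfold rho
  fun_prop

theorem AL1_rho_le (W : Finset ℝ) (x : ℝ) : ‖rho W x‖ ≤ W.card := by
  unfold rho
  refine (norm_sum_le _ _).trans ?_
  have h : ∀ t ∈ W, ‖Complex.exp (((t * x : ℝ) : ℂ) * I)‖ = 1 := fun t _ =>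
    Complex.norm_exp_ofReal_mul_I _
  rw [Finset.sum_congr rfl h]
  simp

theorem AL1_rho_neg (W : Finset ℝ) (x : ℝ) : ‖rho W (-x)‖ = ‖rho W x‖ := by
  have h : rho W (-x) = (starRingEnd ℂ) (rho W x) := by
    unfold rho
    rw [map_sum]
    refine Finset.sum_congr rfl fun t _ => ?_
    rw [← Complex.exp_conj, map_mul, Complex.conj_ofReal, Complex.conj_I]
    congr 1
    push_cast
    ring
  rw [h, Complex.norm_conj]

theorem AL1_kap_cont : Continuous kap := by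
  unfold kap
  refine Continuous.div continuous_const (by fun_prop) fun x => ?_
  positivity

theorem AL1_kap_nonneg (x : ℝ) : 0 ≤ kap x := by
  unfold kap
  positivity

theorem AL1_kap_le (x : ℝ) : kap x ≤ 1 := by
  unfold kap
  rw [div_le_one (by positivity)]
  nlinarith [sq_nonneg x]

/-- the integrand of SYM. -/
noncomputable def AL1_g (W : Finset ℝ) (X : ℝ) (m₁ m₂ m₃ : ℤ) (a b : ℝ) : ℝ :=
  if |a - b| ≤ 5 then
    ‖rho W a‖ * ‖rho W b‖ * ‖rho W (a - b)‖ *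
      kap (X * ((m₁ : ℝ) * Real.exp a + (m₂ : ℝ) * Real.exp b + m₃)) else 0

theorem AL1_g_meas (W : Finset ℝ) (X : ℝ) (m₁ m₂ m₃ : ℤ) :
    Measurable (fun p : ℝ × ℝ => AL1_g W X m₁ m₂ m₃ p.1 p.2) := by
  unfold AL1_g
  refine Measurable.ite ?_ ?_ measurable_const
  · exact measurableSet_le (by fun_prop) measurable_const
  · have h1 := AL1_rho_cont W
    have h2 := AL1_kap_cont
    refine Continuous.measurable ?_
    have h3 : Continuous fun p : ℝ × ℝ => rho W p.1 := h1.comp continuous_fst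
    have h4 : Continuous fun p : ℝ × ℝ => rho W p.2 := h1.comp continuous_snd
    have h5 : Continuous fun p : ℝ × ℝ => rho W (p.1 - p.2) :=
      h1.comp (continuous_fst.sub continuous_snd)
    have h6 : Continuous fun p : ℝ × ℝ =>
        kap (X * ((m₁ : ℝ) * Real.exp p.1 + (m₂ : ℝ) * Real.exp p.2 + m₃)) :=
      h2.comp (by fun_prop)
    exact ((h3.norm.mul h4.norm).mul h5.norm).mul h6

theorem AL1_g_nonneg (W : Finset ℝ) (X : ℝ) (m₁ m₂ m₃ : ℤ) (a b : ℝ) :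
    0 ≤ AL1_g W X m₁ m₂ m₃ a b := by
  unfold AL1_g
  split_ifs
  · have := AL1_kap_nonneg (X * ((m₁ : ℝ) * Real.exp a + (m₂ : ℝ) * Real.exp b + m₃))
    positivity
  · exact le_rfl

theorem AL1_g_le (W : Finset ℝ) (X : ℝ) (m₁ m₂ m₃ : ℤ) (a b : ℝ) :
    AL1_g W X m₁ m₂ m₃ a b ≤ (W.card : ℝ) ^ 3 := by
  unfold AL1_g
  split_ifs
  · have h0 := AL1_kap_nonneg (X * ((m₁ : ℝ) * Real.exp a + (m₂ : ℝ) * Real.exp b + m₃))
    have h1 := AL1_kap_le (X * ((m₁ : ℝ) * Real.exp a + (m₂ : ℝ) * Real.exp b + m₃))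
    have h2 := AL1_rho_le W a
    have h3 := AL1_rho_le W b
    have h4 := AL1_rho_le W (a - b)
    calc _ ≤ (W.card : ℝ) * W.card * W.card * 1 := by gcongr
      _ = _ := by ring
  · positivity

theorem AL1_ii (f : ℝ → ℝ) (hf : StronglyMeasurable f) (B : ℝ) (hB : ∀ x, |f x| ≤ B) :
    IntervalIntegrable f volume (-5) 5 := by
  rw [intervalIntegrable_iff_integrableOn_Ioc_of_le (by norm_num)]
  refine Measure.integrableOn_of_bounded (M := B) ?_ hf.aestronglyMeasurable ?_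
  · rw [Real.volume_Ioc]
    exact ENNReal.ofReal_ne_top
  · exact Filter.Eventually.of_forall fun x => by rw [Real.norm_eq_abs]; exact hB x

theorem AL1_g_ii (W : Finset ℝ) (X : ℝ) (m₁ m₂ m₃ : ℤ) (a : ℝ) :
    IntervalIntegrable (fun b => AL1_g W X m₁ m₂ m₃ a b) volume (-5) 5 := by
  refine AL1_ii _ ?_ ((W.card : ℝ) ^ 3) fun b => ?_
  · exact ((AL1_g_meas W X m₁ m₂ m₃).comp (measurable_const.prodMk measurable_id)).stronglyMeasurable
  · rw [abs_of_nonneg (AL1_g_nonneg _ _ _ _ _ _ _)]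
    exact AL1_g_le _ _ _ _ _ _ _

theorem AL1_g_jj (W : Finset ℝ) (X : ℝ) (m₁ m₂ m₃ : ℤ) :
    IntervalIntegrable (fun a => ∫ b in (-5 : ℝ)..5, AL1_g W X m₁ m₂ m₃ a b) volume (-5) 5 := by
  refine AL1_ii _ ?_ (10 * (W.card : ℝ) ^ 3) fun a => ?_
  · have h := (AL1_g_meas W X m₁ m₂ m₃).stronglyMeasurable.integral_prod_right'
      (ν := volume.restrict (Set.Ioc (-5 : ℝ) 5))
    have h2 : (fun a => ∫ b in (-5 : ℝ)..5, AL1_g W X m₁ m₂ m₃ a b) =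
        fun a => ∫ b in Set.Ioc (-5 : ℝ) 5, AL1_g W X m₁ m₂ m₃ a b := by
      funext a
      rw [intervalIntegral.integral_of_le (by norm_num)]
    rw [h2]
    exact h
  · have h := intervalIntegral.norm_integral_le_of_norm_le_const (a := (-5 : ℝ)) (b := 5)
      (f := fun b => AL1_g W X m₁ m₂ m₃ a b) (C := (W.card : ℝ) ^ 3) (fun b _ => by
        rw [Real.norm_eq_abs, abs_of_nonneg (AL1_g_nonneg _ _ _ _ _ _ _)]
        exact AL1_g_le _ _ _ _ _ _ _)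
    rw [Real.norm_eq_abs] at h
    refine h.trans (le_of_eq ?_)
    norm_num
    ring

theorem AL1_isum (s : Finset ℤ) {f : ℤ → ℝ → ℝ} (h : ∀ i ∈ s, IntervalIntegrable (f i) volume (-5) 5) :
    IntervalIntegrable (fun x => ∑ i ∈ s, f i x) volume (-5) 5 := by
  have h1 := IntervalIntegrable.sum s h
  have h2 : (fun x => ∑ i ∈ s, f i x) = ∑ i ∈ s, f i := by
    funext x
    rw [Finset.sum_apply]
  rwa [h2]

/-- restriction of an integral to `[-5, 5]`. -/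
theorem AL1_restrict (f : ℝ → ℂ) (hf : ∀ x, 5 < |x| → f x = 0) :
    ∫ x, f x = ∫ x in (-5 : ℝ)..5, f x := by
  rw [intervalIntegral.integral_of_le (by norm_num), ← integral_Icc_eq_integral_Ioc]
  refine (setIntegral_eq_integral_of_forall_compl_eq_zero fun x hx => hf x ?_).symm
  by_contra hcon
  exact hx (abs_le.1 (not_lt.1 hcon))

theorem AL1 (h1 : CDI_stmt) (h2 : GEC_stmt) (h3 : K3B_stmt) (h4 : SYM_stmt) : AL1_stmt := by
  obtain ⟨C, hC, hK⟩ := h3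
  refine ⟨3 * (C * Real.exp 10), by positivity, fun W X M hX => ?_⟩
  obtain ⟨hGc, hG0, hGB⟩ := h2 X M
  rw [h1 (GE X M) hGc hG0 W (Bs X M) hGB]
  -- restriction to the square
  have hin : ∀ a, ∫ b : ℝ, rho W (-a) * rho W (a - b) * rho W b *
      ∫ s : ℝ, GE X M (s + a) * GE X M (s + b) * GE X M s =
      ∫ b in (-5 : ℝ)..5, rho W (-a) * rho W (a - b) * rho W b *
      ∫ s : ℝ, GE X M (s + a) * GE X M (s + b) * GE X M s := by
    intro a
    refine AL1_restrict _ fun b hb => ?_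
    rw [(hK X M a b hX).1 (Or.inr (Or.inl hb)), mul_zero]
  have hout : ∫ a : ℝ, ∫ b : ℝ, rho W (-a) * rho W (a - b) * rho W b *
      ∫ s : ℝ, GE X M (s + a) * GE X M (s + b) * GE X M s =
      ∫ a in (-5 : ℝ)..5, ∫ b in (-5 : ℝ)..5, rho W (-a) * rho W (a - b) * rho W b *
      ∫ s : ℝ, GE X M (s + a) * GE X M (s + b) * GE X M s := by
    simp_rw [hin]
    refine AL1_restrict _ fun a ha => ?_
    rw [intervalIntegral.integral_congr (g := fun _ => (0 : ℂ)) fun b _ => ?_]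
    · simp
    · change rho W (-a) * rho W (a - b) * rho W b *
        ∫ s : ℝ, GE X M (s + a) * GE X M (s + b) * GE X M s = 0
      rw [(hK X M a b hX).1 (Or.inl ha), mul_zero]
  rw [hout]
  have hX3 : 0 ≤ X ^ 3 := by positivity
  -- pointwise bound
  have hpt : ∀ a b, ‖rho W (-a) * rho W (a - b) * rho W b *
      ∫ s : ℝ, GE X M (s + a) * GE X M (s + b) * GE X M s‖ ≤
      C * X ^ 3 * ∑ m₁ ∈ MM M, ∑ m₂ ∈ MM M, ∑ m₃ ∈ MM M, AL1_g W X m₁ m₂ m₃ a b := by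
    intro a b
    by_cases hab : |a - b| ≤ 5
    · rw [norm_mul, norm_mul, norm_mul, AL1_rho_neg]
      have hk := (hK X M a b hX).2
      have h5 : C * X ^ 3 * ∑ m₁ ∈ MM M, ∑ m₂ ∈ MM M, ∑ m₃ ∈ MM M, AL1_g W X m₁ m₂ m₃ a b =
          ‖rho W a‖ * ‖rho W (a - b)‖ * ‖rho W b‖ *
          (C * X ^ 3 * ∑ m₁ ∈ MM M, ∑ m₂ ∈ MM M, ∑ m₃ ∈ MM M,
            kap (X * ((m₁ : ℝ) * Real.exp a + (m₂ : ℝ) * Real.exp b + m₃))) := by
        simp only [AL1_g, if_pos hab, ← Finset.mul_sum]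
        ring
      rw [h5]
      exact mul_le_mul_of_nonneg_left hk (by positivity)
    · have hab' : 5 < |a - b| := not_le.1 hab
      rw [(hK X M a b hX).1 (Or.inr (Or.inr hab')), mul_zero, norm_zero]
      have h5 : 0 ≤ ∑ m₁ ∈ MM M, ∑ m₂ ∈ MM M, ∑ m₃ ∈ MM M, AL1_g W X m₁ m₂ m₃ a b :=
        Finset.sum_nonneg fun _ _ => Finset.sum_nonneg fun _ _ => Finset.sum_nonneg fun _ _ =>
          AL1_g_nonneg _ _ _ _ _ _ _
      positivity
  -- the iterated integral of the bound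
  have hgi : ∀ a, IntervalIntegrable (fun b => C * X ^ 3 * ∑ m₁ ∈ MM M, ∑ m₂ ∈ MM M,
      ∑ m₃ ∈ MM M, AL1_g W X m₁ m₂ m₃ a b) volume (-5) 5 := by
    intro a
    refine IntervalIntegrable.const_mul ?_ _
    refine AL1_isum _ fun m₁ _ => ?_
    refine AL1_isum _ fun m₂ _ => ?_
    refine AL1_isum _ fun m₃ _ => ?_
    exact AL1_g_ii W X m₁ m₂ m₃ a
  have hval : ∀ a, ∫ b in (-5 : ℝ)..5, (C * X ^ 3 * ∑ m₁ ∈ MM M, ∑ m₂ ∈ MM M,
      ∑ m₃ ∈ MM M, AL1_g W X m₁ m₂ m₃ a b) =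
      C * X ^ 3 * ∑ m₁ ∈ MM M, ∑ m₂ ∈ MM M, ∑ m₃ ∈ MM M,
        ∫ b in (-5 : ℝ)..5, AL1_g W X m₁ m₂ m₃ a b := by
    intro a
    rw [intervalIntegral.integral_const_mul]
    congr 1
    rw [intervalIntegral.integral_finsetSum]
    · refine Finset.sum_congr rfl fun m₁ _ => ?_
      rw [intervalIntegral.integral_finsetSum]
      · refine Finset.sum_congr rfl fun m₂ _ => ?_
        rw [intervalIntegral.integral_finsetSum]
        intro m₃ _
        exact AL1_g_ii W X m₁ m₂ m₃ a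
      · intro m₂ _
        refine AL1_isum _ fun m₃ _ => ?_
        exact AL1_g_ii W X m₁ m₂ m₃ a
    · intro m₁ _
      refine AL1_isum _ fun m₂ _ => ?_
      refine AL1_isum _ fun m₃ _ => ?_
      exact AL1_g_ii W X m₁ m₂ m₃ a
  have hinner : ∀ a, ‖∫ b in (-5 : ℝ)..5, rho W (-a) * rho W (a - b) * rho W b *
      ∫ s : ℝ, GE X M (s + a) * GE X M (s + b) * GE X M s‖ ≤
      C * X ^ 3 * ∑ m₁ ∈ MM M, ∑ m₂ ∈ MM M, ∑ m₃ ∈ MM M,
        ∫ b in (-5 : ℝ)..5, AL1_g W X m₁ m₂ m₃ a b := by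
    intro a
    rw [← hval a]
    exact intervalIntegral.norm_integral_le_of_norm_le (by norm_num)
      (Filter.Eventually.of_forall fun b _ => hpt a b) (hgi a)
  have hgo : IntervalIntegrable (fun a => C * X ^ 3 * ∑ m₁ ∈ MM M, ∑ m₂ ∈ MM M,
      ∑ m₃ ∈ MM M, ∫ b in (-5 : ℝ)..5, AL1_g W X m₁ m₂ m₃ a b) volume (-5) 5 := by
    refine IntervalIntegrable.const_mul ?_ _
    refine AL1_isum _ fun m₁ _ => ?_
    refine AL1_isum _ fun m₂ _ => ?_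
    refine AL1_isum _ fun m₃ _ => ?_
    exact AL1_g_jj W X m₁ m₂ m₃
  refine (intervalIntegral.norm_integral_le_of_norm_le (by norm_num)
      (Filter.Eventually.of_forall fun a _ => hinner a) hgo).trans ?_
  have hval2 : ∫ a in (-5 : ℝ)..5, (C * X ^ 3 * ∑ m₁ ∈ MM M, ∑ m₂ ∈ MM M,
      ∑ m₃ ∈ MM M, ∫ b in (-5 : ℝ)..5, AL1_g W X m₁ m₂ m₃ a b) =
      C * X ^ 3 * ∑ m₁ ∈ MM M, ∑ m₂ ∈ MM M, ∑ m₃ ∈ MM M,
        ∫ a in (-5 : ℝ)..5, ∫ b in (-5 : ℝ)..5, AL1_g W X m₁ m₂ m₃ a b := by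
    rw [intervalIntegral.integral_const_mul]
    congr 1
    rw [intervalIntegral.integral_finsetSum]
    · refine Finset.sum_congr rfl fun m₁ _ => ?_
      rw [intervalIntegral.integral_finsetSum]
      · refine Finset.sum_congr rfl fun m₂ _ => ?_
        rw [intervalIntegral.integral_finsetSum]
        intro m₃ _
        exact AL1_g_jj W X m₁ m₂ m₃
      · intro m₂ _
        refine AL1_isum _ fun m₃ _ => ?_
        exact AL1_g_jj W X m₁ m₂ m₃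
    · intro m₁ _
      refine AL1_isum _ fun m₂ _ => ?_
      refine AL1_isum _ fun m₃ _ => ?_
      exact AL1_g_jj W X m₁ m₂ m₃
  rw [hval2]
  have hsym : ∑ m₁ ∈ MM M, ∑ m₂ ∈ MM M, ∑ m₃ ∈ MM M,
      ∫ a in (-5 : ℝ)..5, ∫ b in (-5 : ℝ)..5, AL1_g W X m₁ m₂ m₃ a b ≤
      ∑ m₁ ∈ MM M, ∑ m₂ ∈ MM M, ∑ m₃ ∈ MM M,
        Real.exp 10 * (JJ W X m₁ m₂ m₃ + JJ W X m₁ m₃ m₂ + JJ W X m₂ m₃ m₁) :=
    Finset.sum_le_sum fun m₁ _ => Finset.sum_le_sum fun m₂ _ => Finset.sum_le_sum fun m₃ _ =>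
      h4 W X m₁ m₂ m₃ hX
  have hs2 : ∑ m₁ ∈ MM M, ∑ m₂ ∈ MM M, ∑ m₃ ∈ MM M, JJ W X m₁ m₃ m₂ =
      ∑ m₁ ∈ MM M, ∑ m₂ ∈ MM M, ∑ m₃ ∈ MM M, JJ W X m₁ m₂ m₃ :=
    Finset.sum_congr rfl fun m₁ _ => Finset.sum_comm
  have hs3 : ∑ m₁ ∈ MM M, ∑ m₂ ∈ MM M, ∑ m₃ ∈ MM M, JJ W X m₂ m₃ m₁ =
      ∑ m₁ ∈ MM M, ∑ m₂ ∈ MM M, ∑ m₃ ∈ MM M, JJ W X m₁ m₂ m₃ := by
    rw [Finset.sum_comm]
    refine Finset.sum_congr rfl fun m₂ _ => ?_
    rw [Finset.sum_comm]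
  have htot : ∑ m₁ ∈ MM M, ∑ m₂ ∈ MM M, ∑ m₃ ∈ MM M,
        Real.exp 10 * (JJ W X m₁ m₂ m₃ + JJ W X m₁ m₃ m₂ + JJ W X m₂ m₃ m₁) =
      3 * Real.exp 10 * ∑ m₁ ∈ MM M, ∑ m₂ ∈ MM M, ∑ m₃ ∈ MM M, JJ W X m₁ m₂ m₃ := by
    simp_rw [← Finset.mul_sum, Finset.sum_add_distrib]
    rw [hs2, hs3]
    ring
  rw [htot] at hsym
  have hfin := mul_le_mul_of_nonneg_left hsym (by positivity : 0 ≤ C * X ^ 3)
  refine hfin.trans (le_of_eq ?_)
  ring

end Pool.Agent.ZD
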