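import Pool.Agent.helper90.ZD.SpecB
import Pool.Agent.helper59.DM.DV

/-!
# Project zd, module BCJ
-/

set_option autoImplicit false

open Complex MeasureTheory

namespace Pool.Agent.ZD

open Pool.Agent.helper84.DM Pool.Agent.helper78.ED Pool.Agent.DH

theorem BCJ_cs (W : Finset ℝ) (f g : ℝ → ℝ → ℝ) :
    ∑ t ∈ W, ∑ t' ∈ W, f t t' * g t t' ≤
      Real.sqrt (∑ t ∈ W, ∑ t' ∈ W, f t t' ^ 2) * Real.sqrt (∑ t ∈ W, ∑ t' ∈ W, g t t' ^ 2) := by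
  have h := Real.sum_mul_le_sqrt_mul_sqrt (W ×ˢ W) (fun p => f p.1 p.2) (fun p => g p.1 p.2)
  rw [Finset.sum_product, Finset.sum_product, Finset.sum_product] at h
  exact h

theorem BCJ (h1 : BC3_stmt) (h2 : BSQ_stmt) (h3 : BPS_stmt) (h4 : BR5_stmt) : BCJ_stmt := by
  intro ε δ hε hδ hδ1
  obtain ⟨Cd, hCd, hd⟩ := Pool.Agent.helper84.DM.divisor_bound (ε / 2) (by linarith)
  obtain ⟨C5, T5, hC5, h5⟩ := h4 ε δ hε hδ hδ1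
  refine ⟨100 * (Cd * 4 ^ (ε / 2)) * Real.sqrt (2 * C5), max T5 1, by positivity, ?_⟩
  intro T hT W hW N₀ lam J x hN1 hN2 hS hWS hlam hrho
  have hT5 : T5 ≤ T := (le_max_left _ _).trans hT
  have hT1 : 1 ≤ T := (le_max_right _ _).trans hT
  have hT0 : 0 < T := by linarith
  have hTδ : T * T ^ (δ - 1) = T ^ δ := by
    nth_rw 1 [← Real.rpow_one T]
    rw [← Real.rpow_add hT0]
    congr 1
    ring
  have hη : 1 / T ≤ T ^ (δ - 1) := by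
    rw [one_div, ← Real.rpow_neg_one]
    exact Real.rpow_le_rpow_of_exponent_le hT1 (by linarith)
  have hW0 : Sep 0 T W := by
    refine ⟨hW.1, fun t ht t' ht' hne => ?_⟩
    rw [Real.rpow_zero]
    exact (Real.one_le_rpow hT1 hδ.le).trans (hW.2 t ht t' ht' hne)
  have hb3 := h1 T (T ^ (δ - 1)) (5 * T ^ δ) lam W J x (Finset.Ioc N₀ (2 * N₀)) hT1 hη hW0 hWS
    (by simp) (by linarith) hrho
  refine hb3.trans ?_
  -- the natural number N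
  have hNr : ((N₀ ^ 2 : ℕ) : ℝ) = (N₀ : ℝ) ^ 2 := by push_cast; ring
  have hQ := h5 T hT5 W hW (N₀ ^ 2) (by rw [hNr]; exact hN1) (by rw [hNr]; exact hN2)
  rw [hNr] at hQ
  set R : ℝ := (W.card : ℝ) with hR
  have hR0 : 0 ≤ R := Nat.cast_nonneg _
  have hTε : 0 < T ^ ε := Real.rpow_pos_of_pos hT0 _
  have hQ2 : QW W (N₀ ^ 2) ≤ (2 * C5) * T ^ ε * (R * ((N₀ : ℝ) ^ 2) ^ 2) := by
    refine hQ.trans ?_
    have hs : (N₀ : ℝ) ^ 2 * S0 δ T W ≤ R * ((N₀ : ℝ) ^ 2) ^ 2 := by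
      have := mul_le_mul_of_nonneg_left hS (sq_nonneg (N₀ : ℝ))
      refine this.trans (le_of_eq ?_)
      ring
    have h6 : 0 ≤ C5 * T ^ ε := by positivity
    have h7 := mul_le_mul_of_nonneg_left (add_le_add_right hs (R * ((N₀ : ℝ) ^ 2) ^ 2)) h6
    linarith
  -- fourth moment
  have hD : ∀ k ∈ Finset.Ioc (N₀ ^ 2) (4 * N₀ ^ 2), d k ≤ Cd * 4 ^ (ε / 2) * T ^ (ε / 2) := by
    intro k hk
    rw [Finset.mem_Ioc] at hk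
    refine (hd k (by omega)).trans ?_
    rw [mul_assoc, ← Real.mul_rpow (by norm_num) hT0.le]
    refine mul_le_mul_of_nonneg_left ?_ hCd.le
    refine Real.rpow_le_rpow (Nat.cast_nonneg _) ?_ (by linarith)
    have h6 : (k : ℝ) ≤ ((4 * N₀ ^ 2 : ℕ) : ℝ) := by exact_mod_cast hk.2
    push_cast at h6
    linarith
  have h4th := h2 W (Finset.Ioc N₀ (2 * N₀)) (Finset.Ioc (N₀ ^ 2) (4 * N₀ ^ 2))
    (Cd * 4 ^ (ε / 2) * T ^ (ε / 2)) (by simp) (by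
      intro m hm n hn
      rw [Finset.mem_Ioc] at hm hn ⊢
      constructor
      · nlinarith [hm.1, hn.1]
      · nlinarith [Nat.mul_le_mul hm.2 hn.2]) hD
  have hps := h3 W (Finset.Ioc (N₀ ^ 2) (4 * N₀ ^ 2)) (IL (N₀ ^ 2)) (fun _ => 1) 1
    (by simp [IL]) (by
      intro k hk
      rw [IL, Finset.mem_Ioc]
      rw [Finset.mem_Ioc] at hk
      exact ⟨hk.1, by omega⟩) (fun k _ => ⟨zero_le_one, le_rfl⟩)
  have hps2 : ∑ t ∈ W, ∑ t' ∈ W, ‖PL (Finset.Ioc (N₀ ^ 2) (4 * N₀ ^ 2)) (t - t')‖ ^ 2 ≤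
      QW W (N₀ ^ 2) := by
    have h6 : ∑ t ∈ W, ∑ t' ∈ W, ‖PL (Finset.Ioc (N₀ ^ 2) (4 * N₀ ^ 2)) (t - t')‖ ^ 2 =
        ∑ t ∈ W, ∑ t' ∈ W, ‖∑ k ∈ Finset.Ioc (N₀ ^ 2) (4 * N₀ ^ 2),
          (((1 : ℝ) : ℝ) : ℂ) * (k : ℂ) ^ (-(((t - t' : ℝ) : ℂ) * I))‖ ^ 2 := by
      refine Finset.sum_congr rfl fun t _ => Finset.sum_congr rfl fun t' _ => ?_
      simp only [PL, Complex.ofReal_one, one_mul]
    rw [h6]
    refine hps.trans (le_of_eq ?_)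
    rw [one_pow, one_mul]
    rfl
  have hF : ∑ t ∈ W, ∑ t' ∈ W, ‖PL (Finset.Ioc N₀ (2 * N₀)) (t - t')‖ ^ 4 ≤
      (Cd * 4 ^ (ε / 2) * T ^ (ε / 2)) ^ 2 * ((2 * C5) * T ^ ε * (R * ((N₀ : ℝ) ^ 2) ^ 2)) :=
    h4th.trans (mul_le_mul_of_nonneg_left (hps2.trans hQ2) (sq_nonneg _))
  have hcs := BCJ_cs W (fun t t' => ‖nu J x (t - t')‖)
    (fun t t' => ‖PL (Finset.Ioc N₀ (2 * N₀)) (t - t')‖ ^ 2)
  have hcs2 : ∑ t ∈ W, ∑ t' ∈ W, (‖PL (Finset.Ioc N₀ (2 * N₀)) (t - t')‖ ^ 2) ^ 2 =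
      ∑ t ∈ W, ∑ t' ∈ W, ‖PL (Finset.Ioc N₀ (2 * N₀)) (t - t')‖ ^ 4 := by
    refine Finset.sum_congr rfl fun t _ => Finset.sum_congr rfl fun t' _ => ?_
    ring
  rw [hcs2] at hcs
  have hsq : Real.sqrt (∑ t ∈ W, ∑ t' ∈ W, ‖PL (Finset.Ioc N₀ (2 * N₀)) (t - t')‖ ^ 4) ≤
      (Cd * 4 ^ (ε / 2)) * T ^ ε * Real.sqrt (2 * C5) * (Real.sqrt R * (N₀ : ℝ) ^ 2) := by
    refine (Real.sqrt_le_sqrt hF).trans (le_of_eq ?_)
    have h6 : (Cd * 4 ^ (ε / 2) * T ^ (ε / 2)) ^ 2 * ((2 * C5) * T ^ ε * (R * ((N₀ : ℝ) ^ 2) ^ 2)) =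
        ((Cd * 4 ^ (ε / 2)) * T ^ ε * (N₀ : ℝ) ^ 2) ^ 2 * ((2 * C5) * R) := by
      have h7 : T ^ ε = T ^ (ε / 2) * T ^ (ε / 2) := by
        rw [← Real.rpow_add hT0]
        congr 1
        ring
      rw [h7]
      ring
    rw [h6, Real.sqrt_mul (sq_nonneg _), Real.sqrt_sq (by positivity),
      Real.sqrt_mul (by positivity)]
    ring
  have hSN0 : 0 ≤ Real.sqrt (SN W J x) := Real.sqrt_nonneg _
  have hmain : ∑ t ∈ W, ∑ t' ∈ W, ‖nu J x (t - t')‖ * ‖PL (Finset.Ioc N₀ (2 * N₀)) (t - t')‖ ^ 2 ≤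
      Real.sqrt (SN W J x) *
        ((Cd * 4 ^ (ε / 2)) * T ^ ε * Real.sqrt (2 * C5) * (Real.sqrt R * (N₀ : ℝ) ^ 2)) :=
    hcs.trans (mul_le_mul_of_nonneg_left hsq hSN0)
  have hco : 20 * T * T ^ (δ - 1) * (5 * T ^ δ) = 100 * T ^ (2 * δ) := by
    have h6 : T ^ (2 * δ) = T ^ δ * T ^ δ := by
      rw [← Real.rpow_add hT0]
      congr 1
      ring
    rw [h6, mul_assoc 20 T, hTδ]
    ring
  rw [hco]
  have h2δ : 0 ≤ 100 * T ^ (2 * δ) := by positivity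
  refine (mul_le_mul_of_nonneg_left hmain h2δ).trans (le_of_eq ?_)
  rw [← Real.sqrt_eq_rpow, ← Real.sqrt_eq_rpow, Real.rpow_add hT0]
  ring

end Pool.Agent.ZD
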